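import Pool.Agent.Y760.RT.Ba

/-!
# Project RT: common divisors of the values of relatively prime polynomials (helper362)
-/

set_option autoImplicit false

namespace Pool.Agent.Y362.RT

open Filter Topology Pool.Agent.TH932.Abs Pool.Agent.TH932.Germs Pool.Agent.TH932.Chi
open Pool.Agent.TH796.AL Pool.Agent.Y760.RT

section basic

variable {m : ℕ} {B : Base m} {L : ℕ → ℝ} (hL : Tendsto L atTop atTop)

include hL in
lemma inv_pos {D : GG} (h : D ∉ Sv B L none 0) : ∃ δ : ℝ, 0 < δ ∧ D⁻¹ ∈ Sv B L none δ := by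
  obtain ⟨a, rfl⟩ := gm_surj D
  change gm a ∉ SS L Rinf 0 at h
  rw [mem_SS] at h
  push Not at h
  obtain ⟨ε, hε, h⟩ := h
  refine ⟨ε, hε, ?_⟩
  change _ ∈ SS L Rinf ε
  rw [gm_inv, mem_SS]
  intro ε' hε'
  filter_upwards [h, L_nonneg hL] with n h1 h2
  unfold Rinf at *
  push Not at h1
  push_cast
  rw [abs_inv]
  calc |(a n : ℝ)|⁻¹ ≤ (Real.exp (-(0 - ε) * L n))⁻¹ := by
        apply inv_anti₀ (Real.exp_pos _) h1.le
    _ = Real.exp ((0 - ε) * L n) := by rw [← Real.exp_neg]; ring_nf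
    _ ≤ Real.exp (-(ε - ε') * L n) := by
        apply Real.exp_le_exp.2
        nlinarith

include hL in
lemma int_fin (p : ℕ → ℤ) (i : Fin m) : gm (fun t => (p t : ℚ)) ∈ Sv B L (some i) 0 := by
  change _ ∈ SS L (Rb (B.P i) (Pool.Agent.TH932.Germs.cop (B.P i))) 0
  rw [mem_SS]
  intro ε hε
  filter_upwards [L_nonneg hL] with n hn
  refine ⟨1, 1, p n, 0, one_ne_zero, ?_, Submonoid.one_mem _, ?_, ?_⟩
  · simp only [Int.cast_one, abs_one]
    exact Real.one_le_exp (by positivity)
  · simp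
  · simp only [Int.cast_zero, zero_mul]
    nlinarith

include hL in
lemma int_sint (p : ℕ → ℤ) : Sint B L (gm (fun t => (p t : ℚ))) := by
  refine ⟨0, ?_⟩
  rw [mem_SS]
  intro ε hε
  filter_upwards [L_nonneg hL] with n hn
  refine ⟨1, p n, fun _ => 0, one_ne_zero, ?_, ?_, ?_⟩
  · simp only [Int.cast_one, abs_one]
    exact Real.one_le_exp (by positivity)
  · simp
  · intro i
    simp only [Int.cast_zero, zero_mul]
    nlinarith

lemma phi_sint (A : MvPolynomial (Fin m) (KK L hL)) : Sint B L (phi B hL A) := by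
  rw [phi_eq]
  exact Sint.sum hL _ _ fun g _ => Sint.mul hL (Sint.alg hL _) (ch_sint hL _)

/-- a sum of multiples of characters at a place -/
lemma sum_mem {G : Type} [Fintype G] (v : Option (Fin m)) (f : G → KK L hL)
    (e : G → Fin m → ℝ) (w : ℝ) (hw : ∀ g, f g ≠ 0 → w ≤ lv B v (e g)) :
    ∑ g, (f g : GG) * ch B hL (e g) ∈ Sv B L v w := by
  have hF := filt_v (B := B) hL v
  refine Finset.sum_induction _ (fun x => x ∈ Sv B L v w) (fun a b => hF.add_mem)
    (hF.zero_mem w) ?_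
  intro g _
  by_cases h : f g = 0
  · rw [h, ZeroMemClass.coe_zero, zero_mul]
    exact hF.zero_mem w
  · refine hF.anti (hw g h) ?_
    have h1 := hF.mul_mem (hF.alg_mem (f g)) (ch_mem (B := B) hL v (e g))
    rw [zero_add] at h1
    exact h1

end basic

/-- one of two relatively prime polynomials has a monomial free of the given variable -/
lemma exists_free {K : Type} [Field K] {m : ℕ} {A A' : MvPolynomial (Fin m) K}
    (h : IsRelPrime A A') (i : Fin m) :
    (∃ g : Fin m →₀ ℕ, A.coeff g ≠ 0 ∧ g i = 0) ∨ ∃ g : Fin m →₀ ℕ, A'.coeff g ≠ 0 ∧ g i = 0 := by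
  by_contra hcon
  push Not at hcon
  obtain ⟨h1, h2⟩ := hcon
  have key : ∀ C : MvPolynomial (Fin m) K, (∀ g : Fin m →₀ ℕ, C.coeff g ≠ 0 → g i ≠ 0) →
      MvPolynomial.X i ∣ C := by
    intro C hC
    rw [MvPolynomial.X_dvd_iff_modMonomial_eq_zero]
    refine MvPolynomial.ext _ _ fun g => ?_
    rw [MvPolynomial.coeff_zero]
    by_cases hg : Finsupp.single i 1 ≤ g
    · exact MvPolynomial.coeff_modMonomial_of_le _ hg
    · rw [MvPolynomial.coeff_modMonomial_of_not_le _ hg]
      by_contra h3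
      refine hg (Finsupp.single_le_iff.2 ?_)
      exact Nat.one_le_iff_ne_zero.2 (hC g h3)
  have h3 := h (key A h1) (key A' h2)
  have h4 := h3.map (MvPolynomial.eval (0 : Fin m → K))
  rw [MvPolynomial.eval_X] at h4
  exact not_isUnit_zero h4

section main

variable {m : ℕ} (B : Base m) {L : ℕ → ℝ} (hL : Tendsto L atTop atTop)

/-- real exponents -/
def rf {m N : ℕ} (g : Fin m → Fin (N + 1)) : Fin m → ℝ := fun i => ((g i : ℕ) : ℝ)

lemma rf_inj {m N : ℕ} : Function.Injective (rf (m := m) (N := N)) := by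
  intro g h e
  funext i
  have h1 := congrFun e i
  unfold rf at h1
  exact Fin.ext (by exact_mod_cast h1)

lemma phi_pol (N : ℕ) (f : (Fin m → Fin (N + 1)) → KK L hL) :
    phi B hL (pol (KK L hL) m N f) = ∑ g, ((f g : KK L hL) : GG) * ch B hL (rf g) := by
  unfold pol
  rw [LinearMap.sum_apply, map_sum]
  refine Finset.sum_congr rfl fun g _ => ?_
  rw [LinearMap.comp_apply, phi_monomial, LinearMap.proj_apply]
  rfl

lemma phi_pol_inj (N : ℕ) (f : (Fin m → Fin (N + 1)) → KK L hL)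
    (h : phi B hL (pol (KK L hL) m N f) = 0) : f = 0 := by
  rw [phi_pol] at h
  exact funext (li_ch B hL rf rf_inj f h)

lemma phi_pol_sum (N : ℕ) {ι : Type} [Fintype ι] (c : ι → KK L hL)
    (z : ι → (Fin m → Fin (N + 1)) → KK L hL) :
    phi B hL (pol (KK L hL) m N (∑ i, c i • z i)) =
      ∑ i, (c i : GG) * phi B hL (pol (KK L hL) m N (z i)) := by
  rw [map_sum, map_sum]
  refine Finset.sum_congr rfl fun i _ => ?_
  rw [map_smul, MvPolynomial.smul_eq_C_mul, map_mul]
  congr 1
  unfold phi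
  rw [MvPolynomial.coe_eval₂Hom, MvPolynomial.eval₂_C]
  rfl

/-- the sizes of the valuations -/
lemma lv_bound (v : Option (Fin m)) {N : ℕ} (g : Fin m → Fin (N + 1)) :
    lv B v (rf g) ≤ ((N : ℝ) + 1) * ∑ i, Real.log (B.P i) := by
  have h0 : ∀ i, 0 ≤ Real.log (B.P i) := fun i => (B.log_pos i).le
  have h1 : 0 ≤ ∑ i, Real.log (B.P i) := Finset.sum_nonneg fun i _ => h0 i
  have h2 : ∀ i, 0 ≤ rf g i := fun i => Nat.cast_nonneg _
  have h3 : ∀ i, rf g i ≤ (N : ℝ) + 1 := by
    intro i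
    have : (g i : ℕ) ≤ N + 1 := (g i).2.le
    unfold rf
    exact_mod_cast this
  cases v with
  | none =>
    have h4 : 0 ≤ ∑ i, rf g i * Real.log (B.P i) :=
      Finset.sum_nonneg fun i _ => mul_nonneg (h2 i) (h0 i)
    have h5 : 0 ≤ ((N : ℝ) + 1) * ∑ i, Real.log (B.P i) := by positivity
    unfold lv
    linarith
  | some i =>
    have h4 : Real.log (B.P i) ≤ ∑ i, Real.log (B.P i) :=
      Finset.single_le_sum (f := fun i => Real.log (B.P i)) (fun i _ => h0 i) (Finset.mem_univ i)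
    unfold lv
    exact mul_le_mul (h3 i) h4 (h0 i) (by positivity)

end main

/-- the sum over the range of an injective map -/
lemma sum_ge {G : Type} [Fintype G] {d : ℕ} (τ : Fin d → G) (hτ : Function.Injective τ)
    (val : G → ℝ) (M : ℝ) (hM : ∀ g, val g ≤ M) :
    ∑ g, val g - ((Fintype.card G : ℝ) - d) * M ≤ ∑ j, val (τ j) := by
  classical
  have h1 : ∑ j, val (τ j) = ∑ g ∈ Finset.univ.image τ, val g := by
    rw [Finset.sum_image fun a _ b _ h => hτ h]
  have h2 : ∑ g ∈ Finset.univ.image τ, val g + ∑ g ∈ (Finset.univ.image τ)ᶜ, val g =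
      ∑ g, val g := Finset.sum_add_sum_compl _ _
  have h3 : ∑ g ∈ (Finset.univ.image τ)ᶜ, val g ≤ ((Finset.univ.image τ)ᶜ).card • M :=
    Finset.sum_le_card_nsmul _ _ _ fun g _ => hM g
  have h4 : (((Finset.univ.image τ)ᶜ).card : ℝ) = (Fintype.card G : ℝ) - d := by
    have h5 : (Finset.univ.image τ).card = d := by
      rw [Finset.card_image_of_injective _ hτ, Finset.card_univ, Fintype.card_fin]
    have h6 := Finset.card_add_card_compl (Finset.univ.image τ)
    rw [h5] at h6
    rw [eq_sub_iff_add_eq, add_comm]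
    exact_mod_cast h6
  rw [nsmul_eq_mul, h4] at h3
  linarith

/-- the numerical contradiction -/
lemma no_large {δ c K : ℝ} (hδ : 0 < δ) (m : ℕ) (d : ℕ → ℝ)
    (h1 : ∀ N : ℕ, ((N : ℝ) + 1) ^ 2 * (((N : ℝ) + 1) ^ m - d N) ≤ c * ((N : ℝ) + 1) ^ m)
    (hK : 0 ≤ K)
    (h2 : ∀ N : ℕ, d N * δ ≤ K * (((N : ℝ) + 1) ^ m - d N) * ((N : ℝ) + 1)) : False := by
  obtain ⟨N, hN⟩ := exists_nat_gt ((K * |c| + δ * |c|) / δ)
  rw [div_lt_iff₀ hδ] at hN
  have h3 := h1 N
  have h4 := h2 N
  have hx : (1 : ℝ) ≤ (N : ℝ) + 1 := by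
    have : (0 : ℝ) ≤ N := Nat.cast_nonneg _
    linarith
  have hNx : K * |c| + δ * |c| < ((N : ℝ) + 1) * δ := by nlinarith
  generalize (N : ℝ) + 1 = x at h3 h4 hx hNx
  generalize d N = e at h3 h4
  have hxm : 0 < x ^ m := by positivity
  have hx0 : 0 < x := by linarith
  -- multiply by `x ^ 2`
  have h5 : x ^ 2 * (e * δ) ≤ K * x * (c * x ^ m) := by
    calc x ^ 2 * (e * δ) ≤ x ^ 2 * (K * (x ^ m - e) * x) := by gcongr
      _ = K * x * (x ^ 2 * (x ^ m - e)) := by ring
      _ ≤ K * x * (c * x ^ m) := by gcongr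
  have h6 : δ * (x ^ 2 * x ^ m - c * x ^ m) ≤ δ * (x ^ 2 * e) := by
    apply mul_le_mul_of_nonneg_left _ hδ.le
    linarith
  have h7 : (δ * (x ^ 2 - c)) * x ^ m ≤ (K * x * c) * x ^ m := by
    calc (δ * (x ^ 2 - c)) * x ^ m = δ * (x ^ 2 * x ^ m - c * x ^ m) := by ring
      _ ≤ δ * (x ^ 2 * e) := h6
      _ = x ^ 2 * (e * δ) := by ring
      _ ≤ K * x * (c * x ^ m) := h5
      _ = (K * x * c) * x ^ m := by ring
  have h8 := le_of_mul_le_mul_right h7 hxm
  have hc : c ≤ |c| := le_abs_self c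
  have h9 : K * x * c ≤ K * |c| * x := by
    calc K * x * c ≤ K * x * |c| := by gcongr
      _ = K * |c| * x := by ring
  have h10 : δ * c ≤ δ * |c| * x := by
    calc δ * c ≤ δ * |c| := by gcongr
      _ = δ * |c| * 1 := by ring
      _ ≤ δ * |c| * x := by gcongr
  have h11 : δ * x ^ 2 ≤ (K * |c| + δ * |c|) * x := by nlinarith
  have h12 : (K * |c| + δ * |c|) * x < x * δ * x := by
    apply mul_lt_mul_of_pos_right hNx hx0
  have h13 : x * δ * x = δ * x ^ 2 := by ring
  linarith

/-- RT-GCD: the common divisors of the values of relatively prime polynomials are negligible -/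
theorem gcd (had : AdStmt) (hdim : DimStmt) (hfin : FinStmt) : GcdStmt := by
  intro m B hP L hL A A' hA hA' hrel p q D _ hp hq
  by_contra hD
  obtain ⟨δ, hδ, hDδ⟩ := inv_pos hL hD
  have hphA := phi_ne B hL hA
  have hphA' := phi_ne B hL hA'
  have hD0 : D ≠ 0 := by
    rintro rfl
    rw [mul_zero] at hp
    exact hphA hp.symm
  have hp' : gm (fun t => (p t : ℚ)) = phi B hL A * D⁻¹ := by
    rw [← hp, mul_inv_cancel_right₀ hD0]
  have hq' : gm (fun t => (q t : ℚ)) = phi B hL A' * D⁻¹ := by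
    rw [← hq, mul_inv_cancel_right₀ hD0]
  -- the finite places
  have hDfin : ∀ i, D⁻¹ ∈ Sv B L (some i) 0 := by
    intro i
    have hF := filt_v (B := B) hL (some i)
    rcases exists_free hrel i with ⟨g, hg, hgi⟩ | ⟨g, hg, hgi⟩
    · have h1 := hF.mul_mem (int_fin (B := B) hL p i) (hfin m B hP L hL A i g hg hgi)
      rw [hp', add_zero, mul_comm (phi B hL A) _, mul_inv_cancel_right₀ hphA] at h1
      exact h1
    · have h1 := hF.mul_mem (int_fin (B := B) hL q i) (hfin m B hP L hL A' i g hg hgi)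
      rw [hq', add_zero, mul_comm (phi B hL A') _, mul_inv_cancel_right₀ hphA'] at h1
      exact h1
  obtain ⟨c, hc⟩ := hdim (KK L hL) m A A' hA hA' hrel
  have hΛ : 0 ≤ ∑ i, Real.log (B.P i) := Finset.sum_nonneg fun i _ => (B.log_pos i).le
  refine no_large (K := ((m : ℝ) + 1) * ∑ i, Real.log (B.P i)) hδ m
    (fun N => (Module.finrank (KK L hL) (WW A A' N) : ℝ)) hc (by positivity) fun N => ?_
  -- the adapted bases
  have had1 := fun v : Option (Fin m) => had (KK L hL) (Fin m → Fin (N + 1)) (WW A A' N)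
    (fun g => lv B v (rf g))
  generalize hd : Module.finrank (KK L hL) (WW A A' N) = d at had1 ⊢
  choose z τ hz hzW hτ hval using had1
  let t : Option (Fin m) → ℝ := fun v => v.elim δ (fun _ => 0)
  have hDt : ∀ v, D⁻¹ ∈ Sv B L v (t v) := by
    intro v
    cases v with
    | none => exact hDδ
    | some i => exact hDfin i
  have key := movq_thm m B L hL (Fin d) inferInstance
    (fun v j => phi B hL (pol (KK L hL) m N (z v j)) * D⁻¹)
    (fun v j => lv B v (rf (τ v j)) + t v)
    (by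
      intro v c' h
      have h1 : phi B hL (pol (KK L hL) m N (∑ i, c' i • z v i)) * D⁻¹ = 0 := by
        rw [phi_pol_sum, Finset.sum_mul, ← h]
        exact Finset.sum_congr rfl fun i _ => mul_assoc _ _ _
      have h2 : phi B hL (pol (KK L hL) m N (∑ i, c' i • z v i)) = 0 :=
        (mul_eq_zero.1 h1).resolve_right (inv_ne_zero hD0)
      have h3 := phi_pol_inj B hL N _ h2
      exact Fintype.linearIndependent_iff.1 (hz v) c' h3)
    (by
      intro v i
      have h1 : z v i ∈ Submodule.span (KK L hL) (Set.range (z none)) := by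
        have h2 : Submodule.span (KK L hL) (Set.range (z none)) = WW A A' N := by
          refine Submodule.eq_of_le_of_finrank_eq ?_ ?_
          · rw [Submodule.span_le]
            rintro _ ⟨j, rfl⟩
            exact hzW none j
          · rw [finrank_span_eq_card (hz none), Fintype.card_fin, hd]
        rw [h2]
        exact hzW v i
      obtain ⟨c', hc'⟩ := (Submodule.mem_span_range_iff_exists_fun _).1 h1
      refine ⟨c', ?_⟩
      rw [← hc', phi_pol_sum, Finset.sum_mul]
      exact Finset.sum_congr rfl fun i _ => mul_assoc _ _ _)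
    (by
      intro v i
      refine (filt_v (B := B) hL v).mul_mem ?_ (hDt v)
      rw [phi_pol]
      exact sum_mem hL v (z v i) rf _ fun g hg => hval v i g hg)
    (by
      intro i
      have h1 : pol (KK L hL) m N (z none i) ∈ Ideal.span {A, A'} := hzW none i
      obtain ⟨a, b, hab⟩ := Ideal.mem_span_pair.1 h1
      have h2 : phi B hL (pol (KK L hL) m N (z none i)) * D⁻¹ =
          phi B hL a * gm (fun t => (p t : ℚ)) + phi B hL b * gm (fun t => (q t : ℚ)) := by
        rw [← hab, map_add, map_mul, map_mul, hp', hq']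
        ring
      change Sint B L (phi B hL (pol (KK L hL) m N (z none i)) * D⁻¹)
      rw [h2]
      exact Sint.add hL (Sint.mul hL (phi_sint hL a) (int_sint hL p))
        (Sint.mul hL (phi_sint hL b) (int_sint hL q)))
  have h1 : ∑ v, ∑ j, (lv B v (rf (τ v j)) + t v) =
      ∑ v, ∑ j, lv B v (rf (τ v j)) + d * δ := by
    have h2 : ∀ v, ∑ j, (lv B v (rf (τ v j)) + t v) = ∑ j, lv B v (rf (τ v j)) + d * t v := by
      intro v
      rw [Finset.sum_add_distrib, Finset.sum_const, Finset.card_univ, Fintype.card_fin,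
        nsmul_eq_mul]
    rw [Finset.sum_congr rfl fun v _ => h2 v, Finset.sum_add_distrib]
    congr 1
    rw [Fintype.sum_option]
    simp [t]
  have h2 : ∀ v, ∑ g : Fin m → Fin (N + 1), lv B v (rf g) -
      (((N : ℝ) + 1) ^ m - d) * (((N : ℝ) + 1) * ∑ i, Real.log (B.P i)) ≤
        ∑ j, lv B v (rf (τ v j)) := by
    intro v
    have h3 := sum_ge (τ v) (hτ v) (fun g => lv B v (rf g)) _ (fun g => lv_bound B v g)
    rw [Fintype.card_fun, Fintype.card_fin, Fintype.card_fin] at h3
    push_cast at h3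
    exact h3
  have h3 : ∑ v, (∑ g : Fin m → Fin (N + 1), lv B v (rf g) -
      (((N : ℝ) + 1) ^ m - d) * (((N : ℝ) + 1) * ∑ i, Real.log (B.P i))) ≤
        ∑ v, ∑ j, lv B v (rf (τ v j)) := Finset.sum_le_sum fun v _ => h2 v
  rw [Finset.sum_sub_distrib, Finset.sum_comm, Finset.sum_const, Finset.card_univ,
    Fintype.card_option, Fintype.card_fin, nsmul_eq_mul,
    Finset.sum_congr rfl fun g _ => lv_sum (B := B) (rf g), Finset.sum_const_zero] at h3
  rw [h1] at key
  push_cast at h3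
  have h4 : ((m : ℝ) + 1) * ((((N : ℝ) + 1) ^ m - d) * (((N : ℝ) + 1) *
      ∑ i, Real.log (B.P i))) = ((m : ℝ) + 1) * (∑ i, Real.log (B.P i)) *
        (((N : ℝ) + 1) ^ m - d) * ((N : ℝ) + 1) := by ring
  linarith

end Pool.Agent.Y362.RT
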